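import Pool.Agent.helper2.CP.B3

/-!
# MP_a50d3c_nt: the numbers which reach a prime in at most `K` steps are rare

There is a constant `C` such that for all `K` and all `x ≥ 16` at most `C (C (log log x)^2)^K x / log x` of the
numbers `n ≤ x` have a prime among `n, a n, ..., a^K n`.
-/

set_option autoImplicit false

namespace Pool.Agent.Results.MP_a50d3c_nt.FewSteps

open Pool.Agent.helper2.CP

theorem a_prime {q : ℕ} (hq : q.Prime) : a q = q := by
  unfold a
  rw [if_pos (Or.inr hq)]

theorem prime_of_exists {K n : ℕ} (h : ∃ k ≤ K, (a^[k] n).Prime) : (a^[K] n).Prime := by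
  obtain ⟨k, hk, hp⟩ := h
  obtain ⟨j, rfl⟩ : ∃ j, K = j + k := ⟨K - k, by omega⟩
  rw [Function.iterate_add_apply, Function.iterate_fixed (a_prime hp)]
  exact hp

theorem exp_one_le_log {x : ℕ} (hx : 16 ≤ x) : Real.exp 1 ≤ Real.log x := by
  have h1 : Real.log 16 ≤ Real.log x := Real.log_le_log (by norm_num) (by exact_mod_cast hx)
  have h2 : Real.log 16 = 4 * Real.log 2 := by
    rw [show (16 : ℝ) = 2 ^ 4 by norm_num, Real.log_pow]
    norm_num
  have h3 := Real.log_two_gt_d9
  have h4 := Real.exp_one_lt_d9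
  linarith

theorem result : ∃ C : ℝ, 0 < C ∧ ∀ K x : ℕ, 16 ≤ x →
    (((Finset.Icc 1 x).filter (fun n => ∃ k ≤ K, (a^[k] n).Prime)).card : ℝ) ≤
      C * (C * Real.log (Real.log x) ^ 2) ^ K * (x / Real.log x) := by
  refine ⟨1000000, by norm_num, fun K x hx => ?_⟩
  have hx0 : (0 : ℝ) < x := by
    have : 0 < x := by omega
    exact_mod_cast this
  have hlx := exp_one_le_log hx
  have he := Real.exp_one_gt_d9
  have hlx2 : 2 ≤ Real.log x := by linarith
  have hlx0 : 0 < Real.log x := by linarith
  have hll : 1 ≤ Real.log (Real.log x) := by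
    rw [Real.le_log_iff_exp_le hlx0]
    exact hlx
  obtain ⟨l, hl⟩ : ∃ l : ℝ, l = Real.log (Real.log x) := ⟨_, rfl⟩
  rw [← hl] at hll ⊢
  obtain ⟨D, hD⟩ : ∃ D : ℕ, D = Nat.log 10 x + 1 := ⟨_, rfl⟩
  have hD1 : 1 ≤ D := by omega
  have hxD : x < 10 ^ D := by rw [hD]; exact Nat.lt_pow_succ_log_self (by norm_num) x
  have hDx : 10 ^ (D - 1) ≤ x := by
    rw [hD]
    exact Nat.pow_log_le_self 10 (by omega)
  have hD0 : (0 : ℝ) < D := by exact_mod_cast hD1
  rcases le_or_gt K D with hK | hK
  · have h1 : (((Finset.Icc 1 x).filter (fun n => ∃ k ≤ K, (a^[k] n).Prime)).card : ℝ) ≤ F K D := by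
      unfold F
      have : ((Finset.Icc 1 x).filter (fun n => ∃ k ≤ K, (a^[k] n).Prime)).card ≤
          ((Finset.range (10 ^ D)).filter (fun n => (a^[K] n).Prime)).card := by
        refine Finset.card_le_card fun n hn => ?_
        rw [Finset.mem_filter, Finset.mem_Icc] at hn
        rw [Finset.mem_filter, Finset.mem_range]
        exact ⟨by omega, prime_of_exists hn.2⟩
      exact_mod_cast this
    have h2 := F_le K D hD1
    have h10 := two_le_log_ten
    have h10' : Real.log 10 ≤ 9 := by
      have := Real.log_le_sub_one_of_pos (by norm_num : (0 : ℝ) < 10)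
      linarith
    -- `D ≤ log x`
    have h3 : (D : ℝ) ≤ Real.log x := by
      have h4 : ((D - 1 : ℕ) : ℝ) * Real.log 10 ≤ Real.log x := by
        rw [← Real.log_pow]
        apply Real.log_le_log (by positivity)
        exact_mod_cast hDx
      have h5 : ((D - 1 : ℕ) : ℝ) = D - 1 := by
        rw [Nat.cast_sub hD1, Nat.cast_one]
      rw [h5] at h4
      nlinarith
    -- `log x ≤ 9 D`
    have h4 : Real.log x ≤ 9 * D := by
      have h5 : Real.log x ≤ D * Real.log 10 := by
        rw [← Real.log_pow]
        apply Real.log_le_log hx0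
        exact_mod_cast hxD.le
      nlinarith
    have h5 : (10 : ℝ) ^ D / D ≤ 90 * (x / Real.log x) := by
      have h6 : (10 : ℝ) ^ D ≤ 10 * x := by
        have h7 : 10 ^ D ≤ 10 * x := by
          calc 10 ^ D = 10 * 10 ^ (D - 1) := by
                rw [← pow_succ']
                congr 1
                omega
            _ ≤ 10 * x := Nat.mul_le_mul_left _ hDx
        exact_mod_cast h7
      calc (10 : ℝ) ^ D / D ≤ 10 * x / D := div_le_div_of_nonneg_right h6 hD0.le
        _ ≤ 10 * x / (Real.log x / 9) := by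
            apply div_le_div_of_nonneg_left (by positivity) (by positivity)
            linarith
        _ = 90 * (x / Real.log x) := by
            field_simp
            ring
    have h6 : lg (D + K) ≤ 3 * l := by
      have h7 : lg (D + K) ≤ lg (2 * D) := lg_mono (by omega) (by omega)
      have h8 : lg (2 * D) = 1 + Real.log 2 + Real.log D := by
        unfold lg
        push_cast
        rw [Real.log_mul (by norm_num) hD0.ne']
        ring
      have h9 : Real.log D ≤ l := by
        rw [hl]
        exact Real.log_le_log hD0 h3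
      have h11 := Real.log_two_lt_d9
      linarith
    have h7 : (10000 * lg (D + K) ^ 2) ^ K ≤ (1000000 * l ^ 2) ^ K := by
      apply pow_le_pow_left₀ (by positivity)
      have h8 : 1 ≤ lg (D + K) := one_le_lg (by omega)
      have h9 : lg (D + K) ^ 2 ≤ (3 * l) ^ 2 := pow_le_pow_left₀ (by linarith) h6 2
      nlinarith [sq_nonneg l]
    calc (((Finset.Icc 1 x).filter (fun n => ∃ k ≤ K, (a^[k] n).Prime)).card : ℝ) ≤ F K D := h1
      _ ≤ 10000 * (10000 * lg (D + K) ^ 2) ^ K * (10 ^ D / D) := h2
      _ ≤ 10000 * (1000000 * l ^ 2) ^ K * (90 * (x / Real.log x)) := by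
          apply mul_le_mul (mul_le_mul_of_nonneg_left h7 (by norm_num)) h5 (by positivity) (by positivity)
      _ = 900000 * ((1000000 * l ^ 2) ^ K * (x / Real.log x)) := by ring
      _ ≤ 1000000 * ((1000000 * l ^ 2) ^ K * (x / Real.log x)) :=
          mul_le_mul_of_nonneg_right (by norm_num) (by positivity)
      _ = 1000000 * (1000000 * l ^ 2) ^ K * (x / Real.log x) := by ring
  · have h1 : (((Finset.Icc 1 x).filter (fun n => ∃ k ≤ K, (a^[k] n).Prime)).card : ℝ) ≤ x := by
      have : ((Finset.Icc 1 x).filter (fun n => ∃ k ≤ K, (a^[k] n).Prime)).card ≤ x :=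
        (Finset.card_filter_le _ _).trans (by simp)
      exact_mod_cast this
    have h2 : Real.log x ≤ (1000000 * l ^ 2) ^ K := by
      have h3 : Real.log x ≤ x := by
        have := Real.log_le_sub_one_of_pos hx0
        linarith
      have h4 : (x : ℝ) ≤ 10 ^ K := by
        have h5 : x ≤ 10 ^ K := hxD.le.trans (Nat.pow_le_pow_right (by norm_num) hK.le)
        exact_mod_cast h5
      have h5 : (10 : ℝ) ^ K ≤ (1000000 * l ^ 2) ^ K := by
        apply pow_le_pow_left₀ (by norm_num)
        nlinarith
      linarith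
    refine h1.trans ?_
    have h3 : 0 < (x : ℝ) / Real.log x := by positivity
    have h4 : (1 : ℝ) ≤ (1000000 * l ^ 2) ^ K := by
      apply one_le_pow₀
      nlinarith
    calc (x : ℝ) = Real.log x * (x / Real.log x) := by field_simp
      _ ≤ (1000000 * l ^ 2) ^ K * (x / Real.log x) := mul_le_mul_of_nonneg_right h2 h3.le
      _ ≤ 1000000 * (1000000 * l ^ 2) ^ K * (x / Real.log x) := by
          apply mul_le_mul_of_nonneg_right _ h3.le
          linarith

end Pool.Agent.Results.MP_a50d3c_nt.FewSteps
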