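import Pool.Agent.helper2.CP.Main
import Pool.Agent.helper10.BV.Final

/-!
# MP_a50d3c_nt: primes with many composite preimages under the map `a`

For every `M` and `N₀` there are a prime `q` and `M` composite numbers `n > N₀` with `a n = q`. In particular there
are infinitely many composite numbers whose orbit reaches a prime.
-/

set_option autoImplicit false

namespace Pool.Agent.Results.MP_a50d3c_nt.ManyPreimages

open Pool.Agent.helper2.CP

theorem result : ∀ M N₀ : ℕ, ∃ q : ℕ, q.Prime ∧ ∃ S : Finset ℕ, S.card = M ∧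
    ∀ n ∈ S, N₀ < n ∧ 2 ≤ n ∧ ¬ n.Prime ∧ a n = q := by
  intro M N₀
  classical
  -- the preimages of a large prime `q` are large: among the primes `q` choose one larger than all `a n`, `n ≤ N₀`
  obtain ⟨q, ⟨hq, S, hS, h⟩, hlt⟩ := (many_preimages BVM.bvInput M).exists_gt ((Finset.range (N₀ + 1)).sup a)
  refine ⟨q, hq, S, hS, fun n hn => ?_⟩
  obtain ⟨h1, h2, h3⟩ := h n hn
  refine ⟨?_, h1, h2, h3⟩
  by_contra hcon
  have h4 : a n ≤ (Finset.range (N₀ + 1)).sup a :=
    Finset.le_sup (f := a) (Finset.mem_range.2 (by omega))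
  omega

end Pool.Agent.Results.MP_a50d3c_nt.ManyPreimages
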